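import Pool.Agent.TH130.CI.Cb2

/-!
A Cayley–Bacharach bound for almost complete intersections in terms of the numbers of factors of the
generators of the complete intersection, over any field.
-/

open MvPolynomial

namespace Pool.Agent.Results.MP_4cdbcc_ag.FactorBound

/-- Let `K` be any field and `f_1, …, f_n ∈ K[x_1, …, x_n]` a regular sequence of forms; suppose
that `f_t` is a product of `k_t ≥ 1` forms `g_tj` of positive degrees `e_tj`, so that
`a_t = deg f_t = ∑ j, e_tj ≥ k_t`.  Let `w ∉ (f)` be a form of degree `D`.  Then there are integers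
`0 ≤ u_t < k_t` with `∑ u_t ≤ D` such that the length of `K[x] / ((f) + (w))` is at most
`∏ a_t - ∏ (k_t - u_t)`.  In particular, if the `f_t` with `t ∈ R` are reducible, it is at most
`∏ a_t - 2 ^ (|R| - D)`. -/
theorem result (K : Type*) [Field K] (n : ℕ) (f : Fin n → MvPolynomial (Fin n) K)
    (hreg : RingTheory.Sequence.IsRegular (MvPolynomial (Fin n) K) (List.ofFn f))
    (k : Fin n → ℕ) (hk : ∀ t, 1 ≤ k t)
    (g : (t : Fin n) → Fin (k t) → MvPolynomial (Fin n) K) (e : (t : Fin n) → Fin (k t) → ℕ)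
    (he : ∀ t j, 1 ≤ e t j) (hg : ∀ t j, (g t j).IsHomogeneous (e t j))
    (hfg : ∀ t, f t = ∏ j, g t j) (D : ℕ) (w : MvPolynomial (Fin n) K)
    (hw : w.IsHomogeneous D) (hwI : w ∉ Ideal.span (Set.range f)) :
    (∃ u : Fin n → ℕ, (∀ t, u t < k t) ∧ ∑ t, u t ≤ D ∧
      Module.finrank K (MvPolynomial (Fin n) K ⧸ (Ideal.span (Set.range f) ⊔ Ideal.span {w})) +
        ∏ t, (k t - u t) ≤ ∏ t, ∑ j, e t j) ∧
    ∀ R : Finset (Fin n), (∀ t ∈ R, 2 ≤ k t) →
      Module.finrank K (MvPolynomial (Fin n) K ⧸ (Ideal.span (Set.range f) ⊔ Ideal.span {w})) +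
        2 ^ (R.card - D) ≤ ∏ t, ∑ j, e t j := by
  have h := TH130CI.aci_fac hk he hg hfg
    (H503R3.QCI.reg_of_isWeaklyRegular hreg.toIsWeaklyRegular) hw hwI
  refine ⟨h, fun R hR => ?_⟩
  obtain ⟨u, hu1, hu2, hu3⟩ := h
  have h2 := TH130CI.two_pow_le hu1 hu2 hR
  omega

end Pool.Agent.Results.MP_4cdbcc_ag.FactorBound
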