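import Pool.Agent.TH130.CI.Bc

/-!
A superpolynomial Cayley–Bacharach bound for almost complete intersections, over any field.
-/

open MvPolynomial

namespace Pool.Agent.Results.MP_4cdbcc_ag.QuasiPolynomial

/-- Let `K` be any field and `f_1, …, f_n ∈ K[x_1, …, x_n]` a regular sequence of forms of degrees
`1 ≤ a_i ≤ A`; put `σ = ∑ (a_i - 1)`.  Let `g ∉ (f)` be a form of degree `D`.  If
`σ - D ≥ 3 ^ m * A`, then the length of `K[x] / ((f) + (g))` is at most
`∏ a_i - 3 ^ (m (m - 1) / 2) * A ^ m * (A + 1)`. -/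
theorem result (K : Type*) [Field K] (n : ℕ) (a : Fin n → ℕ) (ha : ∀ i, 0 < a i)
    (f : Fin n → MvPolynomial (Fin n) K) (hf : ∀ i, (f i).IsHomogeneous (a i))
    (hreg : RingTheory.Sequence.IsRegular (MvPolynomial (Fin n) K) (List.ofFn f))
    (A : ℕ) (hA : 1 ≤ A) (haA : ∀ i, a i ≤ A) (D m : ℕ) (g : MvPolynomial (Fin n) K)
    (hg : g.IsHomogeneous D) (hgI : g ∉ Ideal.span (Set.range f))
    (hm : D + 3 ^ m * A ≤ ∑ i, (a i - 1)) :
    Module.finrank K (MvPolynomial (Fin n) K ⧸ (Ideal.span (Set.range f) ⊔ Ideal.span {g})) +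
      3 ^ (m * (m - 1) / 2) * A ^ m * (A + 1) ≤ ∏ i, a i := by
  rw [← Nat.choose_two_right]
  exact TH130CI.aci_bound' hf ha (H503R3.QCI.reg_of_isWeaklyRegular hreg.toIsWeaklyRegular) hA haA
    hg hgI hm

end Pool.Agent.Results.MP_4cdbcc_ag.QuasiPolynomial
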